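import Pool.Agent.L7h71.COV.Main
import Pool.Agent.H565R2.FO2.USec

set_option autoImplicit false

/-!
Coverings of relational structures: perfect families of coverings.
-/

namespace Pool.Agent.L7h71.COV

open Function Set

/-- Relational structures on `ℕ` with relations of arities `a 0, a 1, ...`. -/
abbrev Str (a : ℕ → ℕ) : Type := (i : ℕ) → (Fin (a i) → ℕ) → Bool

variable {a : ℕ → ℕ}

/-- Isomorphism of structures. -/
def Iso (x y : Str a) : Prop :=
  ∃ σ : Equiv.Perm ℕ, ∀ (i : ℕ) (v : Fin (a i) → ℕ), y i (⇑σ ∘ v) = x i v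

/-- Two distinct points that are the entries of a tuple in a relation. -/
def Adj (x : Str a) (u v : ℕ) : Prop :=
  u ≠ v ∧ ∃ (i : ℕ) (t : Fin (a i) → ℕ), x i t = true ∧ range t = {u, v}

/-- Coverings. -/
structure Covering (x y : Str a) (π : ℕ → ℕ) : Prop where
  fib : ∀ q, {u | π u = q}.Infinite
  const : ∀ (i : ℕ) (t : Fin (a i) → ℕ), (∀ j l, t j = t l) → y i t = x i (π ∘ t)
  adj : ∀ u v, Adj y u v → Adj x (π u) (π v)
  lift : ∀ u q, Adj x (π u) q → ∃! v, Adj y u v ∧ π v = q
  pair : ∀ u v, Adj y u v → ∀ (i : ℕ) (t : Fin (a i) → ℕ), range t ⊆ {u, v} →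
    y i t = x i (π ∘ t)

theorem Adj.symm {x : Str a} {u v : ℕ} (h : Adj x u v) : Adj x v u := by
  obtain ⟨h1, i, t, h2, h3⟩ := h
  exact ⟨h1.symm, i, t, h2, by rw [h3, pair_comm]⟩

theorem Adj.iso {x y : Str a} {σ : Equiv.Perm ℕ}
    (h : ∀ (i : ℕ) (v : Fin (a i) → ℕ), y i (⇑σ ∘ v) = x i v) {u v : ℕ} (h1 : Adj x u v) :
    Adj y (σ u) (σ v) := by
  obtain ⟨h1, i, t, h2, h3⟩ := h1
  refine ⟨fun h => h1 (σ.injective h), i, σ ∘ t, by rw [h]; exact h2, ?_⟩
  rw [range_comp, h3, image_pair]

theorem Iso.symm {x y : Str a} (h : Iso x y) : Iso y x := by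
  obtain ⟨σ, hσ⟩ := h
  refine ⟨σ.symm, fun i v => ?_⟩
  rw [← hσ]
  congr 1
  funext j
  simp

/-- bijection -/
def en : ℕ × (ℕ × ℕ) ≃ ℕ :=
  (Equiv.prodCongr (Equiv.refl ℕ) Nat.pairEquiv).trans Nat.pairEquiv

/-- its inverse -/
def pr (u : ℕ) : ℕ × (ℕ × ℕ) := en.symm u

/-- at least three distinct entries -/
def Three {n : ℕ} (t : Fin n → ℕ) : Prop := ∃ j k l, t j ≠ t k ∧ t k ≠ t l ∧ t j ≠ t l

theorem not_three {n : ℕ} {t : Fin n → ℕ} {u v : ℕ} (h : range t ⊆ {u, v}) : ¬ Three t := by
  rintro ⟨j, k, l, h1, h2, h3⟩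
  have hj : t j = u ∨ t j = v := h ⟨j, rfl⟩
  have hk : t k = u ∨ t k = v := h ⟨k, rfl⟩
  have hl : t l = u ∨ t l = v := h ⟨l, rfl⟩
  rcases hj with hj | hj <;> rcases hk with hk | hk <;> rcases hl with hl | hl <;>
    simp_all

open Classical in
/-- The structure with given adjacencies. -/
noncomputable def mk (x : Str a) (G' : ℕ × (ℕ × ℕ) → ℕ × (ℕ × ℕ) → Prop) (H : Str a) : Str a :=
  fun i t => if Three t then H i t else
    if ∀ j l, t j = t l ∨ G' (pr (t j)) (pr (t l)) then x i (fun j => (pr (t j)).1) else false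

theorem adj_mk {x : Str a} {G' : ℕ × (ℕ × ℕ) → ℕ × (ℕ × ℕ) → Prop} (H : Str a)
    (h1 : ∀ p q, G' p q → Adj x p.1 q.1) (h2 : ∀ p q, G' p q → G' q p) (u v : ℕ) :
    Adj (mk x G' H) u v ↔ G' (pr u) (pr v) := by
  classical
  constructor
  · rintro ⟨huv, i, t, ht, hr⟩
    have h3 : ¬ Three t := not_three (u := u) (v := v) (by rw [hr])
    unfold mk at ht
    rw [if_neg h3] at ht
    by_cases h4 : ∀ j l, t j = t l ∨ G' (pr (t j)) (pr (t l))
    · have hu : u ∈ range t := by rw [hr]; simp
      have hv : v ∈ range t := by rw [hr]; simp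
      obtain ⟨j, rfl⟩ := hu
      obtain ⟨l, rfl⟩ := hv
      exact (h4 j l).resolve_left huv
    · rw [if_neg h4] at ht
      exact absurd ht (by simp)
  · intro h
    obtain ⟨h3, i, t', ht', hr⟩ := h1 _ _ h
    have huv : u ≠ v := fun h4 => h3 (by rw [h4])
    refine ⟨huv, i, fun j => if t' j = (pr u).1 then u else v, ?_, ?_⟩
    · have h4 : ∀ j, (if t' j = (pr u).1 then u else v) = u ∨
          (if t' j = (pr u).1 then u else v) = v := by
        intro j
        split_ifs
        · exact Or.inl rfl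
        · exact Or.inr rfl
      have h5 : ¬ Three (fun j => if t' j = (pr u).1 then u else v) :=
        not_three (u := u) (v := v) (by rintro _ ⟨j, rfl⟩; exact h4 j)
      unfold mk
      rw [if_neg h5, if_pos]
      · rw [← ht']
        congr 1
        funext j
        show (pr (if t' j = (pr u).1 then u else v)).1 = t' j
        have h6 : t' j = (pr u).1 ∨ t' j = (pr v).1 := by
          have : t' j ∈ range t' := ⟨j, rfl⟩
          rw [hr] at this
          exact this
        split_ifs with h7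
        · exact h7.symm
        · exact (h6.resolve_left h7).symm
      · intro j l
        show (if t' j = (pr u).1 then u else v) = (if t' l = (pr u).1 then u else v) ∨
          G' (pr (if t' j = (pr u).1 then u else v)) (pr (if t' l = (pr u).1 then u else v))
        rcases h4 j with h6 | h6 <;> rcases h4 l with h7 | h7 <;> rw [h6, h7]
        · exact Or.inl rfl
        · exact Or.inr h
        · exact Or.inr (h2 _ _ h)
        · exact Or.inl rfl
    · apply Subset.antisymm
      · rintro _ ⟨j, rfl⟩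
        show (if t' j = (pr u).1 then u else v) = u ∨ (if t' j = (pr u).1 then u else v) = v
        split_ifs
        · exact Or.inl rfl
        · exact Or.inr rfl
      · have hu : (pr u).1 ∈ range t' := by rw [hr]; simp
        have hv : (pr v).1 ∈ range t' := by rw [hr]; simp
        obtain ⟨j, hj⟩ := hu
        obtain ⟨l, hl⟩ := hv
        rintro w (rfl | hw)
        · exact ⟨j, by simp [hj]⟩
        · rw [mem_singleton_iff] at hw
          subst hw
          refine ⟨l, ?_⟩
          show (if t' l = (pr u).1 then u else w) = w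
          rw [hl, if_neg (Ne.symm h3)]

theorem covering_mk {x : Str a} {G' : ℕ × (ℕ × ℕ) → ℕ × (ℕ × ℕ) → Prop} (H : Str a)
    (h1 : ∀ p q, G' p q → Adj x p.1 q.1) (h2 : ∀ p q, G' p q → G' q p)
    (h3 : ∀ p v, Adj x p.1 v → ∃! k, G' p (v, k)) :
    Covering x (mk x G' H) (fun u => (pr u).1) := by
  classical
  have hA := adj_mk H h1 h2
  refine ⟨fun q => ?_, fun i t ht => ?_, fun u v h => h1 _ _ ((hA u v).1 h), fun u q h => ?_,
    fun u v h i t ht => ?_⟩
  · refine Set.infinite_of_injective_forall_mem (f := fun n : ℕ => en (q, (n, 0))) ?_ ?_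
    · intro m n h
      have := en.injective h
      simpa using this
    · intro n
      show (pr (en (q, (n, 0)))).1 = q
      simp [pr]
  · have h4 : ¬ Three t := fun ⟨j, k, l, h5, _, _⟩ => h5 (ht j k)
    unfold mk
    rw [if_neg h4, if_pos fun j l => Or.inl (ht j l)]
    rfl
  · obtain ⟨k, hk, hk2⟩ := h3 (pr u) q h
    refine ⟨en (q, k), ⟨(hA _ _).2 (by simpa [pr] using hk), by simp [pr]⟩, ?_⟩
    rintro v ⟨hv1, hv2⟩
    have h4 := (hA _ _).1 hv1
    have h5 : pr v = (q, (pr v).2) := Prod.ext hv2 rfl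
    rw [h5] at h4
    have h6 := hk2 _ h4
    have h7 : pr v = (q, k) := by rw [h5, h6]
    rw [← h7]
    simp [pr]
  · have h4 : ¬ Three t := not_three ht
    have h5 := (hA _ _).1 h
    unfold mk
    rw [if_neg h4, if_pos]
    · rfl
    · intro j l
      have h6 : t j = u ∨ t j = v := ht ⟨j, rfl⟩
      have h7 : t l = u ∨ t l = v := ht ⟨l, rfl⟩
      rcases h6 with h6 | h6 <;> rcases h7 with h7 | h7 <;> rw [h6, h7]
      · exact Or.inl rfl
      · exact Or.inr h5
      · exact Or.inr (h2 _ _ h5)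
      · exact Or.inl rfl

theorem Cyc.iso {x y : Str a} {k : ℕ} (h : Iso x y) (h1 : Cyc (Adj x) k) : Cyc (Adj y) k := by
  obtain ⟨σ, hσ⟩ := h
  obtain ⟨h2, z, h3, h4, h5⟩ := h1
  exact ⟨h2, fun i => σ (z i), fun i => (h3 i).iso hσ, fun i => congrArg σ (h4 i),
    fun i j hi hj hij => h5 i j hi hj (σ.injective hij)⟩

/-- Structures with a cycle have perfectly many coverings. -/
theorem perf_cyc (x : Str a) {m : ℕ} (hm : Cyc (Adj x) m) :
    ∃ g : (ℕ → Bool) → Str a, Continuous g ∧ (∀ c, ∃ π, Covering x (g c) π) ∧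
      ∀ c d, Iso (g c) (g d) → c = d := by
  classical
  obtain ⟨G', h1, h2, h3, h4, h5⟩ := covers (G := Adj x) (fun u v h => h.symm)
    (fun u h => h.1 rfl) hm
  have h6 : ∀ c k, Cyc (Adj (mk x (G' c) fun _ _ => false)) k ↔ Cyc (G' c) k := by
    intro c k
    have hA := adj_mk (fun _ _ => false) (h1 c) (h2 c)
    constructor
    · rintro ⟨a1, z, a2, a3, a4⟩
      refine ⟨a1, fun i => pr (z i), fun i => (hA _ _).1 (a2 i), fun i => congrArg pr (a3 i),
        fun i j hi hj hij => a4 i j hi hj (en.symm.injective hij)⟩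
    · rintro ⟨a1, z, a2, a3, a4⟩
      refine ⟨a1, fun i => en (z i), fun i => (hA _ _).2 (by simpa [pr] using a2 i),
        fun i => congrArg en (a3 i), fun i j hi hj hij => a4 i j hi hj (en.injective hij)⟩
  refine ⟨fun c => mk x (G' c) fun _ _ => false, ?_, fun c => ⟨_, covering_mk _ (h1 c) (h2 c)
    (h3 c)⟩, fun c d hcd => ?_⟩
  · rw [continuous_pi_iff]
    intro i
    rw [continuous_pi_iff]
    intro t
    unfold mk
    by_cases h7 : Three t
    · simp only [if_pos h7]
      exact continuous_const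
    · simp only [if_neg h7]
      have h8 : IsClopen {c | ∀ j l, t j = t l ∨ G' c (pr (t j)) (pr (t l))} := by
        have : {c | ∀ j l, t j = t l ∨ G' c (pr (t j)) (pr (t l))} =
            ⋂ j, ⋂ l, {c | t j = t l ∨ G' c (pr (t j)) (pr (t l))} := by
          ext c; simp
        rw [this]
        refine isClopen_iInter_of_finite fun j => isClopen_iInter_of_finite fun l => ?_
        by_cases h9 : t j = t l
        · have : {c | t j = t l ∨ G' c (pr (t j)) (pr (t l))} = univ := by
            ext c; simp [h9]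
          rw [this]; exact isClopen_univ
        · have : {c | t j = t l ∨ G' c (pr (t j)) (pr (t l))} =
              {c | G' c (pr (t j)) (pr (t l))} := by
            ext c; simp [h9]
          rw [this]; exact h4 _ _
      rw [continuous_discrete_rng]
      intro b
      show IsOpen _
      cases hx : x i (fun j => (pr (t j)).1) with
      | false =>
        have : (fun c : ℕ → Bool => if ∀ j l, t j = t l ∨ G' c (pr (t j)) (pr (t l)) then
          false else false) = fun _ => false := by funext c; split_ifs <;> rfl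
        rw [this]
        exact continuous_const.isOpen_preimage _ (isOpen_discrete _)
      | true =>
        cases b with
        | true =>
          convert h8.isOpen using 1
          ext c
          simp
        | false =>
          convert h8.compl.isOpen using 1
          ext c
          simp
  · funext l
    have h7 := h5 c l
    have h8 := h5 d l
    rw [← h6] at h7 h8
    rw [Bool.eq_iff_iff, ← h7, ← h8]
    exact ⟨fun h => Cyc.iso hcd h, fun h => Cyc.iso hcd.symm h⟩

/-- The tuple `(u, v, w)`. -/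
def triple {n : ℕ} (u v w : ℕ) : Fin n → ℕ :=
  fun j => if j.val = 0 then u else if j.val = 1 then v else w

/-- the ternary relation -/
def TT (i : ℕ) (y : Str a) (u v w : ℕ) : Prop :=
  u ≠ v ∧ v ≠ w ∧ u ≠ w ∧ y i (triple u v w) = true

theorem TT.iso {i : ℕ} {x y : Str a} {σ : Equiv.Perm ℕ}
    (h : ∀ (i : ℕ) (v : Fin (a i) → ℕ), y i (⇑σ ∘ v) = x i v) (u v w : ℕ) :
    TT i x u v w ↔ TT i y (σ u) (σ v) (σ w) := by
  unfold TT
  have h1 : (triple (σ u) (σ v) (σ w) : Fin (a i) → ℕ) = σ ∘ triple u v w := by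
    funext j
    simp only [triple, comp]
    split_ifs <;> rfl
  rw [h1, h]
  simp

/-- reachability in `n` steps -/
def Rch (i : ℕ) (y : Str a) (p q : ℕ) : ℕ → ℕ → Prop
  | 0, w => w = q
  | n + 1, w => ∃ v, Rch i y p q n v ∧ TT i y p v w

theorem Rch.iso {i : ℕ} {x y : Str a} {σ : Equiv.Perm ℕ}
    (h : ∀ (i : ℕ) (v : Fin (a i) → ℕ), y i (⇑σ ∘ v) = x i v) (p q n w : ℕ) :
    Rch i x p q n w ↔ Rch i y (σ p) (σ q) n (σ w) := by
  induction n generalizing w with
  | zero => simp [Rch]
  | succ n ih =>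
    simp only [Rch]
    constructor
    · rintro ⟨v, h1, h2⟩
      exact ⟨σ v, (ih v).1 h1, (TT.iso h _ _ _).1 h2⟩
    · rintro ⟨v, h1, h2⟩
      refine ⟨σ.symm v, (ih _).2 (by simpa using h1), (TT.iso h _ _ _).2 (by simpa using h2)⟩

open Classical in
/-- the decoding -/
noncomputable def dec (i : ℕ) (y : Str a) (p q : ℕ) : ℕ → Bool := fun n =>
  decide (∃ v w, Rch i y p q n v ∧ TT i y v p w)

theorem dec_iso {i : ℕ} {x y : Str a} {σ : Equiv.Perm ℕ}
    (h : ∀ (i : ℕ) (v : Fin (a i) → ℕ), y i (⇑σ ∘ v) = x i v) (p q : ℕ) :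
    dec i x p q = dec i y (σ p) (σ q) := by
  funext n
  unfold dec
  congr 1
  apply propext
  constructor
  · rintro ⟨v, w, h1, h2⟩
    exact ⟨σ v, σ w, (Rch.iso h _ _ _ _).1 h1, (TT.iso h _ _ _).1 h2⟩
  · rintro ⟨v, w, h1, h2⟩
    exact ⟨σ.symm v, σ.symm w, (Rch.iso h _ _ _ _).2 (by simpa using h1),
      (TT.iso h _ _ _).2 (by simpa using h2)⟩

/-- the coding on the tuples with three entries -/
noncomputable def cod (c : ℕ → Bool) : Str a := fun i t =>
  if h : 3 ≤ a i then
    (decide (t ⟨0, by omega⟩ = 0 ∧ 1 ≤ t ⟨1, by omega⟩ ∧ t ⟨2, by omega⟩ = t ⟨1, by omega⟩ + 1) ||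
      (decide (t ⟨1, by omega⟩ = 0 ∧ 1 ≤ t ⟨0, by omega⟩ ∧
        t ⟨2, by omega⟩ = t ⟨0, by omega⟩ + 1) && c (t ⟨0, by omega⟩ - 1)))
  else false

theorem perf_three (x : Str a) {i : ℕ} (hi : 3 ≤ a i) :
    ∃ g : (ℕ → Bool) → Str a, Continuous g ∧ (∀ c, ∃ π, Covering x (g c) π) ∧
      ∀ c d, Iso (g c) (g d) → c = d := by
  classical
  let G' : ℕ × (ℕ × ℕ) → ℕ × (ℕ × ℕ) → Prop := fun p q => Adj x p.1 q.1 ∧ p.2 = q.2
  let y : (ℕ → Bool) → Str a := fun c => mk x G' (cod c)
  have hyc : ∀ c, Covering x (y c) fun u => (pr u).1 := by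
    intro c
    refine covering_mk _ (fun p q h => h.1) (fun p q h => ⟨h.1.symm, h.2.symm⟩) ?_
    intro p v h
    exact ⟨p.2, ⟨h, rfl⟩, fun k hk => hk.2.symm⟩
  have hcont : Continuous y := by
    rw [continuous_pi_iff]
    intro i
    rw [continuous_pi_iff]
    intro t
    show Continuous fun c => mk x G' (cod c) i t
    unfold mk
    by_cases h7 : Three t
    · simp only [if_pos h7]
      unfold cod
      by_cases h8 : 3 ≤ a i
      · simp only [dif_pos h8]
        exact (continuous_of_discreteTopology (f := fun b : Bool => _ || (_ && b))).comp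
          (continuous_apply _)
      · simp only [dif_neg h8]
        exact continuous_const
    · simp only [if_neg h7]
      exact continuous_const
  have hT : ∀ c u v w, TT i (y c) u v w ↔
      ((u = 0 ∧ 1 ≤ v ∧ w = v + 1) ∨ (v = 0 ∧ 1 ≤ u ∧ w = u + 1 ∧ c (u - 1) = true)) := by
    intro c u v w
    have h1 : ∀ (h : u ≠ v ∧ v ≠ w ∧ u ≠ w), y c i (triple u v w) =
        (decide (u = 0 ∧ 1 ≤ v ∧ w = v + 1) || (decide (v = 0 ∧ 1 ≤ u ∧ w = u + 1) &&
          c (u - 1))) := by
      intro h
      have h2 : Three (triple u v w : Fin (a i) → ℕ) :=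
        ⟨⟨0, by omega⟩, ⟨1, by omega⟩, ⟨2, by omega⟩, by simp [triple, h.1],
          by simp [triple, h.2.1], by simp [triple, h.2.2]⟩
      show mk x G' (cod c) i (triple u v w) = _
      unfold mk
      rw [if_pos h2]
      unfold cod
      rw [dif_pos hi]
      simp [triple]
    unfold TT
    constructor
    · rintro ⟨h2, h3, h4, h5⟩
      rw [h1 ⟨h2, h3, h4⟩] at h5
      simpa [and_assoc] using h5
    · intro h
      have h2 : u ≠ v ∧ v ≠ w ∧ u ≠ w := by
        rcases h with ⟨h3, h4, h5⟩ | ⟨h3, h4, h5, _⟩ <;> refine ⟨?_, ?_, ?_⟩ <;> omega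
      refine ⟨h2.1, h2.2.1, h2.2.2, ?_⟩
      rw [h1 h2]
      simpa [and_assoc] using h
  have hR : ∀ c n w, Rch i (y c) 0 1 n w ↔ w = n + 1 := by
    intro c n
    induction n with
    | zero => intro w; simp [Rch]
    | succ n ih =>
      intro w
      constructor
      · rintro ⟨v, h1, h2⟩
        rw [ih] at h1
        rw [hT] at h2
        subst h1
        rcases h2 with h | h
        · exact h.2.2
        · omega
      · intro h
        exact ⟨n + 1, (ih _).2 rfl, (hT _ _ _ _).2 (Or.inl ⟨rfl, by omega, h⟩)⟩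
  have hdec : ∀ c, dec i (y c) 0 1 = c := by
    intro c
    funext n
    unfold dec
    rw [Bool.eq_iff_iff, decide_eq_true_iff]
    constructor
    · rintro ⟨v, w, h1, h2⟩
      rw [hR] at h1
      rw [hT] at h2
      subst h1
      rcases h2 with h | h
      · omega
      · exact h.2.2.2
    · intro h
      exact ⟨n + 1, n + 2, (hR _ _ _).2 rfl, (hT _ _ _ _).2 (Or.inr ⟨rfl, by omega, rfl, h⟩)⟩
  have hmT : ∀ u v w, Measurable fun c => TT i (y c) u v w := by
    intro u v w
    unfold TT
    refine measurable_const.and (measurable_const.and (measurable_const.and ?_))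
    apply measurableSet_setOfPred.1
    have h1 : Continuous fun c => y c i (triple u v w) :=
      continuous_pi_iff.1 (continuous_pi_iff.1 hcont i) _
    exact h1.measurable (measurableSet_singleton true)
  have hmR : ∀ p q n w, Measurable fun c => Rch i (y c) p q n w := by
    intro p q n
    induction n with
    | zero => intro w; exact measurable_const
    | succ n ih =>
      intro w
      exact Measurable.exists fun v => (ih v).and (hmT _ _ _)
  obtain ⟨h, hc, hh⟩ := Pool.Agent.H565R2.FO2.perfect_of_uncountable (Y := ℕ → Bool)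
    (X := Str a) (Z := ℕ → Bool) (ι := ℕ × ℕ) y hcont.measurable
    (fun p c => dec i (y c) p.1 p.2) (by
      intro p
      rw [measurable_pi_iff]
      intro n
      apply measurable_to_bool
      have : (fun c => dec i (y c) p.1 p.2 n) ⁻¹' {true} =
          {c | ∃ v w, Rch i (y c) p.1 p.2 n v ∧ TT i (y c) v p.1 w} := by
        ext c; simp [dec]
      rw [this]
      apply measurableSet_setOfPred.2
      exact Measurable.exists fun v => Measurable.exists fun w => (hmR _ _ _ _).and (hmT _ _ _))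
    (fun c d => Iso (y c) (y d)) (by
      rintro c d ⟨σ, hσ⟩ p
      exact ⟨(σ p.1, σ p.2), dec_iso hσ _ _⟩) (by
      intro hc
      have h1 : (Set.univ : Set (ℕ → Bool)).Countable := by
        refine hc.mono ?_
        intro c _
        exact mem_iUnion.2 ⟨(0, 1), c, hdec c⟩
      have h2 := Set.countable_univ_iff.1 h1
      obtain ⟨f, hf⟩ := exists_surjective_nat (ℕ → Bool)
      obtain ⟨n, hn⟩ := hf (fun k => !(f k k))
      have := congrFun hn n
      simp at this)
  refine ⟨fun c => y (h c), hc, fun c => ⟨_, hyc _⟩, fun c d hcd => ?_⟩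
  by_contra hne
  exact hh c d hne hcd

end Pool.Agent.L7h71.COV
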