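import Mathlib

set_option autoImplicit false

/-!
Coverings of a graph with a cycle with prescribed cycle lengths.
-/

namespace Pool.Agent.L7h71.COV

open Function

/-- `G` has a cycle of length `k`. -/
def Cyc {V : Type} (G : V → V → Prop) (k : ℕ) : Prop :=
  3 ≤ k ∧ ∃ z : ℕ → V, (∀ i, G (z i) (z (i + 1))) ∧ (∀ i, z (i + k) = z i) ∧
    ∀ i j, i < k → j < k → z i = z j → i = j

section words

variable {V : Type} [LinearOrder V]

/-- the letter of a pair -/
def lt (u v : V) : (V × V) × Bool := ((min u v, max u v), decide (u < v))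

/-- the voltage of a pair -/
def vo (u v : V) : FreeGroup (V × V) := FreeGroup.mk [lt u v]

theorem vo_symm {u v : V} (h : u ≠ v) : vo v u = (vo u v)⁻¹ := by
  unfold vo lt
  rw [FreeGroup.inv_mk]
  simp only [FreeGroup.invRev, List.map_cons, List.map_nil, List.reverse_cons, List.reverse_nil,
    List.nil_append]
  rw [min_comm, max_comm]
  congr 4
  rcases lt_or_gt_of_ne h with h1 | h1
  · simp [h1, not_lt_of_gt h1]
  · simp [h1, not_lt_of_gt h1]

theorem lt_rel {u v w : V} (h1 : u ≠ v) (h2 : v ≠ w) (h3 : w ≠ u) :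
    (lt u v).1 = (lt v w).1 → (lt u v).2 = (lt v w).2 := by
  intro h
  exfalso
  have h4 : min u v = min v w := congrArg Prod.fst h
  have h5 : max u v = max v w := congrArg Prod.snd h
  rcases lt_or_gt_of_ne h1 with a | a <;> rcases lt_or_gt_of_ne h2 with b | b
  · rw [min_eq_left a.le, min_eq_left b.le] at h4
    exact h1 h4
  · rw [min_eq_left a.le, min_eq_right b.le] at h4
    exact h3 h4.symm
  · rw [max_eq_left a.le, max_eq_right b.le] at h5
    exact h3 h5.symm
  · rw [max_eq_left a.le, max_eq_left b.le] at h5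
    exact h1 h5

/-- the word of a segment of a sequence -/
def wd (u : ℕ → V) (a n : ℕ) : List ((V × V) × Bool) :=
  (List.range n).map fun i => lt (u (a + i)) (u (a + i + 1))

/-- the group element of a segment of a sequence -/
def sg (u : ℕ → V) (a n : ℕ) : FreeGroup (V × V) := FreeGroup.mk (wd u a n)

theorem sg_zero (u : ℕ → V) (a : ℕ) : sg u a 0 = 1 := by
  simp [sg, wd, FreeGroup.one_eq_mk]

theorem sg_succ (u : ℕ → V) (a n : ℕ) :
    sg u a (n + 1) = sg u a n * vo (u (a + n)) (u (a + n + 1)) := by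
  unfold sg vo wd
  rw [FreeGroup.mul_mk, List.range_succ, List.map_append]
  rfl

theorem sg_add (u : ℕ → V) (a n k : ℕ) : sg u a (n + k) = sg u a n * sg u (a + n) k := by
  induction k with
  | zero => simp [sg_zero]
  | succ k ih =>
    rw [← add_assoc, sg_succ, ih, sg_succ, mul_assoc, ← add_assoc]

theorem sg_shift {u : ℕ → V} {k : ℕ} (h : ∀ i, u (i + k) = u i) (a n : ℕ) :
    sg u (a + k) n = sg u a n := by
  unfold sg wd
  congr 1
  refine List.map_congr_left fun i _ => ?_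
  have h1 : a + k + i = a + i + k := by ring
  have h2 : a + i + k + 1 = a + i + 1 + k := by ring
  rw [h1, h2, h, h]

theorem sg_mul {u : ℕ → V} {k : ℕ} (h : ∀ i, u (i + k) = u i) (n : ℕ) :
    sg u 0 (n * k) = sg u 0 k ^ n := by
  induction n with
  | zero => simp [sg_zero]
  | succ n ih =>
    rw [Nat.succ_mul, sg_add, ih, pow_succ]
    congr 1
    have : ∀ n, sg u (0 + n * k) k = sg u 0 k := by
      intro n
      induction n with
      | zero => simp
      | succ n ih2 =>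
        rw [Nat.succ_mul, ← add_assoc, sg_shift h, ih2]
    exact this n

theorem norm_sg {u : ℕ → V} (h1 : ∀ i, u i ≠ u (i + 1)) (h2 : ∀ i, u (i + 2) ≠ u i) (a n : ℕ) :
    (sg u a n).norm = n := by
  have hr : FreeGroup.IsReduced (wd u a n) := by
    unfold FreeGroup.IsReduced wd
    rw [List.isChain_map]
    cases n with
    | zero => simp
    | succ n =>
      rw [List.isChain_range_succ]
      intro i _
      exact lt_rel (h1 _) (h1 _) (h2 _)
  rw [FreeGroup.norm, sg, FreeGroup.toWord_mk, hr.reduce_eq]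
  simp [wd]

theorem norm_conj_le (g h : FreeGroup (V × V)) :
    (h * g * h⁻¹).norm ≤ g.norm + 2 * h.norm := by
  refine (FreeGroup.norm_mul_le _ _).trans ?_
  have h1 := FreeGroup.norm_mul_le h g
  rw [FreeGroup.norm_inv_eq]
  omega

/-- conjugate cyclically reduced elements have the same length -/
theorem len_eq {g g' h : FreeGroup (V × V)} {k k' : ℕ} (hk : ∀ n, (g ^ n).norm = n * k)
    (hk' : ∀ n, (g' ^ n).norm = n * k') (hg : g = h * g' * h⁻¹) : k = k' := by
  have h1 : ∀ n, n * k ≤ n * k' + 2 * h.norm := by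
    intro n
    rw [← hk, ← hk', hg]
    have : (h * g' * h⁻¹) ^ n = h * g' ^ n * h⁻¹ := conj_pow
    rw [this]
    exact norm_conj_le _ _
  have h2 : ∀ n, n * k' ≤ n * k + 2 * h.norm := by
    intro n
    have h3 : g' = h⁻¹ * g * h⁻¹⁻¹ := by rw [hg]; group
    rw [← hk, ← hk', h3]
    have : (h⁻¹ * g * h⁻¹⁻¹) ^ n = h⁻¹ * g ^ n * h⁻¹⁻¹ := conj_pow
    rw [this]
    have h4 := norm_conj_le (g ^ n) h⁻¹
    rw [FreeGroup.norm_inv_eq] at h4
    exact h4
  by_contra hne
  rcases lt_or_gt_of_ne hne with h3 | h3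
  · have h4 := h2 (2 * h.norm + 1)
    have h5 : (2 * h.norm + 1) * (k + 1) ≤ (2 * h.norm + 1) * k' := Nat.mul_le_mul_left _ h3
    rw [Nat.mul_succ] at h5
    omega
  · have h4 := h1 (2 * h.norm + 1)
    have h5 : (2 * h.norm + 1) * (k' + 1) ≤ (2 * h.norm + 1) * k := Nat.mul_le_mul_left _ h3
    rw [Nat.mul_succ] at h5
    omega

end words

section cover

variable {V Ξ : Type} [LinearOrder V]

/-- The covering graph given by an action of the free group. -/
def cov (G : V → V → Prop) (ρ : FreeGroup (V × V) → Ξ → Ξ) (p q : V × Ξ) : Prop :=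
  G p.1 q.1 ∧ q.2 = ρ (vo p.1 q.1)⁻¹ p.2

theorem cov_symm {G : V → V → Prop} (hs : ∀ u v, G u v → G v u) (hi : ∀ u, ¬ G u u)
    {ρ : FreeGroup (V × V) → Ξ → Ξ} (h1 : ∀ ξ, ρ 1 ξ = ξ)
    (h2 : ∀ g h ξ, ρ (g * h) ξ = ρ g (ρ h ξ)) {p q : V × Ξ} (h : cov G ρ p q) : cov G ρ q p := by
  obtain ⟨h3, h4⟩ := h
  refine ⟨hs _ _ h3, ?_⟩
  have hne : p.1 ≠ q.1 := fun h => hi _ (h ▸ h3)
  rw [vo_symm hne, h4, ← h2, inv_inv, mul_inv_cancel, h1]

theorem cov_uniq {G : V → V → Prop} {ρ : FreeGroup (V × V) → Ξ → Ξ} {p q q' : V × Ξ}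
    (h : cov G ρ p q) (h' : cov G ρ p q') (he : q.1 = q'.1) : q = q' := by
  refine Prod.ext he ?_
  rw [h.2, h'.2, he]

theorem walk {G : V → V → Prop} {ρ : FreeGroup (V × V) → Ξ → Ξ} (h1 : ∀ ξ, ρ 1 ξ = ξ)
    (h2 : ∀ g h ξ, ρ (g * h) ξ = ρ g (ρ h ξ)) {y : ℕ → V × Ξ}
    (hy : ∀ i, cov G ρ (y i) (y (i + 1))) (a n : ℕ) :
    (y (a + n)).2 = ρ (sg (fun i => (y i).1) a n)⁻¹ (y a).2 := by
  induction n with
  | zero => rw [sg_zero, inv_one, h1]; rfl
  | succ n ih =>
    have h3 := (hy (a + n)).2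
    rw [← add_assoc, h3, ih, ← h2, sg_succ, mul_inv_rev]

theorem nonback {G : V → V → Prop} (hs : ∀ u v, G u v → G v u) (hi : ∀ u, ¬ G u u)
    {ρ : FreeGroup (V × V) → Ξ → Ξ} (h1 : ∀ ξ, ρ 1 ξ = ξ)
    (h2 : ∀ g h ξ, ρ (g * h) ξ = ρ g (ρ h ξ)) {y : ℕ → V × Ξ}
    (hy : ∀ i, cov G ρ (y i) (y (i + 1))) {k : ℕ} (hk : 3 ≤ k) (hp : ∀ i, y (i + k) = y i)
    (hinj : ∀ i j, i < k → j < k → y i = y j → i = j) (i : ℕ) : (y (i + 2)).1 ≠ (y i).1 := by
  intro h
  have h3 : y (i + 2) = y i :=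
    cov_uniq (hy (i + 1)) (cov_symm hs hi h1 h2 (hy i)) h
  have hmod : ∀ i, y i = y (i % k) := by
    intro i
    conv_lhs => rw [← Nat.mod_add_div i k]
    generalize i / k = d
    induction d with
    | zero => simp
    | succ d ih => rw [Nat.mul_succ, ← add_assoc, hp, ih]
  rw [hmod (i + 2), hmod i] at h3
  have h4 := hinj _ _ (Nat.mod_lt _ (by omega)) (Nat.mod_lt _ (by omega)) h3
  have h5 : (i + 2) ≡ i [MOD k] := h4
  have h6 : 2 ≡ 0 [MOD k] := by
    have : i + 2 ≡ i + 0 [MOD k] := h5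
    exact Nat.ModEq.add_left_cancel' i this
  have h7 := (Nat.modEq_zero_iff_dvd.1 h6)
  have := Nat.le_of_dvd (by norm_num) h7
  omega

/-- A cycle in the base gives a group element of infinite order. -/
theorem cyc_norm {G : V → V → Prop} (hi : ∀ u, ¬ G u u) {m : ℕ} (hm : 3 ≤ m) {z : ℕ → V}
    (hz : ∀ i, G (z i) (z (i + 1))) (hp : ∀ i, z (i + m) = z i)
    (hinj : ∀ i j, i < m → j < m → z i = z j → i = j) (n : ℕ) :
    ((sg z 0 m) ^ n).norm = n * m := by
  rw [← sg_mul hp]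
  refine norm_sg (fun i h => hi _ (by have := hz i; rw [← h] at this; exact this)) ?_ _ _
  intro i h
  have hmod : ∀ i, z i = z (i % m) := by
    intro i
    conv_lhs => rw [← Nat.mod_add_div i m]
    generalize i / m = d
    induction d with
    | zero => simp
    | succ d ih => rw [Nat.mul_succ, ← add_assoc, hp, ih]
  rw [hmod (i + 2), hmod i] at h
  have h4 := hinj _ _ (Nat.mod_lt _ (by omega)) (Nat.mod_lt _ (by omega)) h
  have h5 : (i + 2) ≡ i [MOD m] := h4
  have h6 : 2 ≡ 0 [MOD m] := by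
    have : i + 2 ≡ i + 0 [MOD m] := h5
    exact Nat.ModEq.add_left_cancel' i this
  have h7 := (Nat.modEq_zero_iff_dvd.1 h6)
  have := Nat.le_of_dvd (by norm_num) h7
  omega

end cover

end Pool.Agent.L7h71.COV
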