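import Pool.Agent.L7h71.COV.Cov

set_option autoImplicit false

/-!
Coverings of a graph with a cycle with prescribed cycle lengths, second part.
-/

namespace Pool.Agent.L7h71.COV

open Function

theorem norm_zpow {α : Type} [DecidableEq α] {w : FreeGroup α} {m : ℕ}
    (hw : ∀ n : ℕ, (w ^ n).norm = n * m) (t : ℤ) : (w ^ t).norm = t.natAbs * m := by
  rcases Int.natAbs_eq t with h | h
  · conv_lhs => rw [h]
    rw [zpow_natCast, hw]
  · conv_lhs => rw [h]
    rw [zpow_neg, zpow_natCast, FreeGroup.norm_inv_eq, hw]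

/-- The coverings. -/
theorem covers {V : Type} [LinearOrder V] [Countable V] {G : V → V → Prop}
    (hs : ∀ u v, G u v → G v u) (hi : ∀ u, ¬ G u u) {m : ℕ} (hm : Cyc G m) :
    ∃ G' : (ℕ → Bool) → V × (ℕ × ℕ) → V × (ℕ × ℕ) → Prop,
      (∀ c p q, G' c p q → G p.1 q.1) ∧ (∀ c p q, G' c p q → G' c q p) ∧
      (∀ c p v, G p.1 v → ∃! k, G' c p (v, k)) ∧ (∀ p q, IsClopen {c | G' c p q}) ∧
      ∀ (c : ℕ → Bool) (l : ℕ), Cyc (G' c) (Nat.nth Nat.Prime l * m) ↔ c l = true := by
  classical
  obtain ⟨hm3, z, hz, hp, hinj⟩ := hm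
  set w : FreeGroup (V × V) := sg z 0 m with hw
  have hwn : ∀ n : ℕ, (w ^ n).norm = n * m := cyc_norm hi hm3 hz hp hinj
  have hpr : ∀ l, (Nat.nth Nat.Prime l).Prime := fun l =>
    Nat.nth_mem_of_infinite Nat.infinite_setOfPred_prime l
  have hpi : Injective (Nat.nth Nat.Prime) := Nat.nth_injective Nat.infinite_setOfPred_prime
  let H : ℕ → Bool → Subgroup (FreeGroup (V × V)) := fun l b =>
    if b then Subgroup.zpowers (w ^ Nat.nth Nat.Prime l) else ⊥
  have hcount : Countable (FreeGroup (V × V)) := by
    have : Surjective (FreeGroup.mk : List ((V × V) × Bool) → FreeGroup (V × V)) :=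
      fun x => ⟨x.toWord, FreeGroup.mk_toWord⟩
    exact this.countable
  have heq : ∀ l b, Nonempty (ℕ ≃ (FreeGroup (V × V) ⧸ H l b) × ℕ) := by
    intro l b
    have h1 : Countable (FreeGroup (V × V) ⧸ H l b) :=
      (QuotientGroup.mk_surjective (s := H l b)).countable
    have h2 : Infinite ((FreeGroup (V × V) ⧸ H l b) × ℕ) := inferInstance
    exact nonempty_equiv_of_countable
  let e : ∀ l b, ℕ ≃ (FreeGroup (V × V) ⧸ H l b) × ℕ := fun l b => Classical.choice (heq l b)
  let ρ : (ℕ → Bool) → FreeGroup (V × V) → ℕ × ℕ → ℕ × ℕ := fun c g ξ =>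
    (ξ.1, (e ξ.1 (c ξ.1)).symm (g • (e ξ.1 (c ξ.1) ξ.2).1, (e ξ.1 (c ξ.1) ξ.2).2))
  have hρ1 : ∀ c ξ, ρ c 1 ξ = ξ := by
    intro c ξ
    simp [ρ]
  have hρ2 : ∀ c g h ξ, ρ c (g * h) ξ = ρ c g (ρ c h ξ) := by
    intro c g h ξ
    simp [ρ, mul_smul]
  refine ⟨fun c => cov G (ρ c), fun c p q h => h.1, fun c p q h =>
    cov_symm hs hi (hρ1 c) (hρ2 c) h, ?_, ?_, ?_⟩
  · intro c p v h
    exact ⟨ρ c (vo p.1 v)⁻¹ p.2, ⟨h, rfl⟩, fun k hk => hk.2⟩
  · intro p q
    have h1 : {c : ℕ → Bool | cov G (ρ c) p q} = (fun c : ℕ → Bool => c p.2.1) ⁻¹'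
        {b | G p.1 q.1 ∧ q.2 = (p.2.1, (e p.2.1 b).symm ((vo p.1 q.1)⁻¹ • (e p.2.1 b p.2.2).1,
          (e p.2.1 b p.2.2).2))} := by
      ext c
      exact Iff.rfl
    rw [h1]
    exact (isClopen_discrete _).preimage (continuous_apply _)
  · intro c l
    constructor
    · rintro ⟨hk3, y, hy1, hy2, hy3⟩
      have hblock : ∀ i, (y i).2.1 = (y 0).2.1 := by
        intro i
        induction i with
        | zero => rfl
        | succ i ih => rw [(hy1 i).2]; exact ih
      have hnb := nonback hs hi (hρ1 c) (hρ2 c) hy1 hk3 hy2 hy3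
      have hne : ∀ i, (y i).1 ≠ (y (i + 1)).1 := fun i h => hi _ (by
        have := (hy1 i).1
        rw [← h] at this
        exact this)
      set u : ℕ → V := fun i => (y i).1 with hu
      set k := Nat.nth Nat.Prime l * m with hk
      set g := sg u 0 k with hg
      have hup : ∀ i, u (i + k) = u i := fun i => congrArg Prod.fst (hy2 i)
      have hgn : ∀ n, (g ^ n).norm = n * k := by
        intro n
        rw [hg, ← sg_mul hup]
        exact norm_sg hne hnb _ _
      have hfix : ρ c g⁻¹ (y 0).2 = (y 0).2 := by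
        have := walk (hρ1 c) (hρ2 c) hy1 0 k
        rw [hy2 0] at this
        exact this.symm
      set l' := (y 0).2.1 with hl'
      obtain ⟨a, ha⟩ := QuotientGroup.mk_surjective (s := H l' (c l'))
        (e l' (c l') (y 0).2.2).1
      have h1 : (e l' (c l')).symm (g⁻¹ • (e l' (c l') (y 0).2.2).1, (e l' (c l') (y 0).2.2).2) =
          (y 0).2.2 := congrArg Prod.snd hfix
      rw [Equiv.symm_apply_eq] at h1
      have h2 : g⁻¹ • (e l' (c l') (y 0).2.2).1 = (e l' (c l') (y 0).2.2).1 :=
        congrArg Prod.fst h1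
      rw [← ha] at h2
      have h3 : ((g⁻¹ * a : FreeGroup (V × V)) : FreeGroup (V × V) ⧸ H l' (c l')) = a := h2
      rw [QuotientGroup.eq] at h3
      have h4 : a⁻¹ * g * a ∈ H l' (c l') := by
        have : (g⁻¹ * a)⁻¹ * a = a⁻¹ * g * a := by group
        rwa [this] at h3
      cases hb : c l' with
      | false =>
        exfalso
        have h5 : a⁻¹ * g * a = 1 := by
          rw [hb] at h4
          simpa [H] using h4
        have h6 : g = 1 := by
          have : g = a * (a⁻¹ * g * a) * a⁻¹ := by group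
          rw [this, h5]
          group
        have h7 := hgn 1
        rw [h6] at h7
        simp at h7
        omega
      | true =>
        have h5 : a⁻¹ * g * a ∈ Subgroup.zpowers (w ^ Nat.nth Nat.Prime l') := by
          rw [hb] at h4
          simpa [H] using h4
        obtain ⟨t, ht⟩ := Subgroup.mem_zpowers_iff.1 h5
        have h6 : ∀ n : ℕ, (((w ^ Nat.nth Nat.Prime l') ^ t) ^ n).norm =
            n * (t.natAbs * Nat.nth Nat.Prime l' * m) := by
          intro n
          have h7 : ((w ^ Nat.nth Nat.Prime l') ^ t) ^ n =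
              w ^ ((Nat.nth Nat.Prime l' : ℤ) * t * n) := by
            rw [zpow_mul, zpow_mul, zpow_natCast, zpow_natCast]
          rw [h7, norm_zpow hwn, Int.natAbs_mul, Int.natAbs_mul, Int.natAbs_natCast,
            Int.natAbs_natCast]
          ring
        have h8 : g = a * (w ^ Nat.nth Nat.Prime l') ^ t * a⁻¹ := by
          rw [ht]
          group
        have h9 := len_eq hgn h6 h8
        have h10 : Nat.nth Nat.Prime l = t.natAbs * Nat.nth Nat.Prime l' := by
          have : 0 < m := by omega
          exact Nat.eq_of_mul_eq_mul_right this h9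
        have h11 : Nat.nth Nat.Prime l' ∣ Nat.nth Nat.Prime l := ⟨_, h10.trans (mul_comm _ _)⟩
        have h12 := (Nat.prime_dvd_prime_iff_eq (hpr _) (hpr _)).1 h11
        rw [← hpi h12]
        exact hb
    · intro hc
      set P := Nat.nth Nat.Prime l with hP
      have hP2 : 2 ≤ P := (hpr l).two_le
      let x0 : ℕ × ℕ := (l, (e l (c l)).symm
        (((1 : FreeGroup (V × V)) : FreeGroup (V × V) ⧸ H l (c l)), 0))
      have hHl : H l (c l) = Subgroup.zpowers (w ^ P) := by
        simp [H, hc, hP]
      have hst : ∀ g : FreeGroup (V × V), ρ c g x0 = x0 ↔ g ∈ Subgroup.zpowers (w ^ P) := by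
        intro g
        rw [← hHl]
        constructor
        · intro h
          have h1 := congrArg Prod.snd h
          simp only [ρ, x0, Equiv.apply_symm_apply] at h1
          have h2 := congrArg Prod.fst ((e l (c l)).symm.injective h1)
          have h3 : ((g * 1 : FreeGroup (V × V)) : FreeGroup (V × V) ⧸ H l (c l)) =
            ((1 : FreeGroup (V × V)) : FreeGroup (V × V) ⧸ H l (c l)) := h2
          rw [QuotientGroup.eq] at h3
          simpa using h3
        · intro h
          simp only [ρ, x0, Equiv.apply_symm_apply]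
          refine Prod.ext rfl ?_
          show (e l (c l)).symm _ = (e l (c l)).symm _
          congr 1
          refine Prod.ext ?_ rfl
          show ((g * 1 : FreeGroup (V × V)) : FreeGroup (V × V) ⧸ H l (c l)) =
            ((1 : FreeGroup (V × V)) : FreeGroup (V × V) ⧸ H l (c l))
          rw [QuotientGroup.eq]
          simpa using h
      have hsi : ∀ i r : ℕ, sg z 0 (i + r * m) = w ^ r * sg z 0 i := by
        intro i r
        rw [add_comm, sg_add, sg_mul hp]
        congr 1
        induction r with
        | zero => simp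
        | succ r ih => rw [Nat.succ_mul, ← add_assoc, sg_shift hp, ih]
      have hzm : ∀ i r : ℕ, z (i + r * m) = z i := by
        intro i r
        induction r with
        | zero => simp
        | succ r ih => rw [Nat.succ_mul, ← add_assoc, hp, ih]
      refine ⟨?_, fun i => (z i, ρ c (sg z 0 i)⁻¹ x0), ?_, ?_, ?_⟩
      · nlinarith
      · intro i
        refine ⟨hz i, ?_⟩
        show ρ c (sg z 0 (i + 1))⁻¹ x0 = ρ c (vo (z i) (z (i + 1)))⁻¹ (ρ c (sg z 0 i)⁻¹ x0)
        rw [← hρ2, sg_succ, mul_inv_rev, zero_add]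
      · intro i
        refine Prod.ext (hzm i P) ?_
        show ρ c (sg z 0 (i + P * m))⁻¹ x0 = ρ c (sg z 0 i)⁻¹ x0
        rw [hsi, mul_inv_rev, hρ2]
        congr 1
        rw [hst]
        exact Subgroup.inv_mem _ (Subgroup.mem_zpowers _)
      · have key : ∀ i j, i ≤ j → j < P * m → z i = z j →
            ρ c (sg z 0 i)⁻¹ x0 = ρ c (sg z 0 j)⁻¹ x0 → i = j := by
          intro i j hij hj hzz hρρ
          have hmod : ∀ i, z i = z (i % m) := by
            intro i
            conv_lhs => rw [← Nat.mod_add_div i m, mul_comm]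
            exact hzm _ _
          rw [hmod i, hmod j] at hzz
          have h4 := hinj _ _ (Nat.mod_lt _ (by omega)) (Nat.mod_lt _ (by omega)) hzz
          have h5 : m ∣ j - i := (Nat.modEq_iff_dvd' hij).1 h4
          obtain ⟨r, hr⟩ := h5
          have h6 : j = i + r * m := by
            rw [mul_comm r m, ← hr]
            omega
          rcases Nat.eq_zero_or_pos r with h0 | h0
          · rw [h6, h0]; simp
          · exfalso
            rw [h6, hsi, mul_inv_rev, hρ2] at hρρ
            have h7 : ρ c (sg z 0 i) (ρ c (sg z 0 i)⁻¹ x0) =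
                ρ c (sg z 0 i) (ρ c (sg z 0 i)⁻¹ (ρ c (w ^ r)⁻¹ x0)) := congrArg _ hρρ
            rw [← hρ2, ← hρ2, mul_inv_cancel, hρ1, hρ1] at h7
            have h8 := (hst _).1 h7.symm
            obtain ⟨t, ht⟩ := Subgroup.mem_zpowers_iff.1 h8
            have h9 : ((w ^ P) ^ t).norm = t.natAbs * P * m := by
              have h7 : (w ^ P) ^ t = w ^ ((P : ℤ) * t) := by
                rw [zpow_mul, zpow_natCast]
              rw [h7, norm_zpow hwn, Int.natAbs_mul, Int.natAbs_natCast]
              ring
            rw [ht, FreeGroup.norm_inv_eq, hwn] at h9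
            have h10 : r = t.natAbs * P := Nat.eq_of_mul_eq_mul_right (by omega) h9
            have h11 : r < P := by
              by_contra h
              have : P * m ≤ r * m := Nat.mul_le_mul_right _ (by omega)
              omega
            have h12 : P ≤ r := by
              rw [h10]
              refine Nat.le_mul_of_pos_left _ ?_
              rcases Nat.eq_zero_or_pos t.natAbs with h | h
              · rw [h] at h10; omega
              · exact h
            omega
        intro i j hi' hj' hyy
        have h1 : z i = z j := congrArg Prod.fst hyy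
        have h2 : ρ c (sg z 0 i)⁻¹ x0 = ρ c (sg z 0 j)⁻¹ x0 := congrArg Prod.snd hyy
        rcases le_total i j with h | h
        · exact key i j h hj' h1 h2
        · exact (key j i h hi' h1.symm h2.symm).symm

end Pool.Agent.L7h71.COV
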